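import Pool.Agent.helper71.AA.Defs
import Pool.Agent.helper51.JT.BT
import Pool.Agent.helper97.SQ.PM

/-! # Project AA (MP_ad8ced_nt), module P1: primes in progressions -/

namespace Pool.Agent.helper71.AA

open Finset Filter

theorem P1_floor (P : ℝ) (hP : 4 ≤ P) : P / 2 ≤ (⌊P⌋₊ : ℝ) ∧
    Real.log P / 2 ≤ Real.log (⌊P⌋₊ : ℝ) ∧ Real.log (⌊P⌋₊ : ℝ) ≤ Real.log P ∧
    0 < Real.log (⌊P⌋₊ : ℝ) := by
  have h1 : P < (⌊P⌋₊ : ℝ) + 1 := Nat.lt_floor_add_one P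
  have h2 : (⌊P⌋₊ : ℝ) ≤ P := Nat.floor_le (by linarith)
  have h3 : P / 2 ≤ (⌊P⌋₊ : ℝ) := by linarith
  have h4 : (2 : ℝ) ≤ (⌊P⌋₊ : ℝ) := by linarith
  refine ⟨h3, ?_, Real.log_le_log (by linarith) h2, Real.log_pos (by linarith)⟩
  have h5 : Real.log P / 2 = Real.log (√P) := by
    rw [Real.log_sqrt (by linarith)]
  rw [h5]
  apply Real.log_le_log (Real.sqrt_pos.mpr (by linarith))
  have h6 : √P ≤ P / 2 := by
    rw [Real.sqrt_le_left (by linarith)]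
    nlinarith
  linarith

theorem Ps_bt : ∃ C : ℝ, 0 < C ∧ ∀ w : ℕ, ∃ P₀ : ℝ, ∀ P : ℝ, P₀ ≤ P → ∀ b g c : ℕ,
    b.Coprime (primorial w) → g.Coprime (primorial w) → 1 ≤ g → (g : ℝ) ≤ P ^ (1 / 4 : ℝ) →
    c.Coprime g → ((((Ps (primorial w) b P).filter (fun q => q ≡ c [MOD g])).card : ℕ) : ℝ) ≤
      C * P / ((Nat.totient (primorial w) : ℝ) * (Nat.totient g : ℝ) * Real.log P) := by
  obtain ⟨C, hC, x₀, hbt⟩ := Pool.Agent.helper7.JT.bt_gen
  refine ⟨2 * C, by positivity, fun w => ?_⟩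
  set W : ℕ := primorial w with hW
  have hWpos : 0 < W := primorial_pos w
  refine ⟨max 4 (max (2 * x₀) ((2 * (W : ℝ) ^ 2) ^ 2)), fun P hP b g c hb hg hg1 hgP hc => ?_⟩
  have hP4 : (4 : ℝ) ≤ P := le_trans (le_max_left _ _) hP
  have hPx : 2 * (x₀ : ℝ) ≤ P := le_trans (le_trans (le_max_left _ _) (le_max_right _ _)) hP
  have hPW : (2 * (W : ℝ) ^ 2) ^ 2 ≤ P :=
    le_trans (le_trans (le_max_right _ _) (le_max_right _ _)) hP
  obtain ⟨f1, f2, f3, f4⟩ := P1_floor P hP4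
  have hP0 : (0 : ℝ) < P := by linarith
  have hlogP : 0 < Real.log P := Real.log_pos (by linarith)
  have hx : x₀ ≤ ⌊P⌋₊ := by
    have : (x₀ : ℝ) ≤ (⌊P⌋₊ : ℝ) := by linarith
    exact_mod_cast this
  have hWg1 : 1 ≤ W * g := Nat.succ_le_of_lt (Nat.mul_pos hWpos hg1)
  -- the size of the modulus
  have hsq : ((W * g) ^ 2 : ℕ) ≤ ⌊P⌋₊ := by
    have e1 : ((g : ℝ)) ^ 2 ≤ √P := by
      have : (P ^ (1 / 4 : ℝ)) ^ 2 = √P := by
        rw [← Real.rpow_natCast, ← Real.rpow_mul hP0.le, Real.sqrt_eq_rpow]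
        norm_num
      rw [← this]
      exact pow_le_pow_left₀ (by positivity) hgP 2
    have e2 : 2 * (W : ℝ) ^ 2 ≤ √P := by
      apply Real.le_sqrt_of_sq_le
      exact hPW
    have e3 : √P * √P = P := Real.mul_self_sqrt hP0.le
    have e4 : (((W * g) ^ 2 : ℕ) : ℝ) ≤ (⌊P⌋₊ : ℝ) := by
      push_cast
      have e5 : ((W : ℝ) * g) ^ 2 = (W : ℝ) ^ 2 * (g : ℝ) ^ 2 := by ring
      rw [e5]
      have e6 : (W : ℝ) ^ 2 * (g : ℝ) ^ 2 ≤ (√P / 2) * √P := by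
        apply mul_le_mul _ e1 (by positivity) (by positivity)
        linarith
      nlinarith
    exact_mod_cast e4
  -- the class
  have hcop : Nat.Coprime W g := hg.symm
  obtain ⟨r, hr1, hr2⟩ := Nat.chineseRemainder hcop b c
  have hrW : Nat.Coprime r W := by
    have : Nat.gcd r W = Nat.gcd b W := hr1.gcd_eq
    rw [Nat.Coprime, this]
    exact hb
  have hrg : Nat.Coprime r g := by
    have : Nat.gcd r g = Nat.gcd c g := hr2.gcd_eq
    rw [Nat.Coprime, this]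
    exact hc
  have hrWg : Nat.Coprime r (W * g) := Nat.Coprime.mul_right hrW hrg
  have key := hbt ⌊P⌋₊ hx (W * g) r hWg1 hsq hrWg
  have hsub : (Ps W b P).filter (fun q => q ≡ c [MOD g]) ⊆
      (Icc 1 ⌊P⌋₊).filter (fun p => p.Prime ∧ p % (W * g) = r % (W * g)) := by
    intro q hq
    simp only [Ps, mem_filter] at hq ⊢
    obtain ⟨⟨h1, h2, h3⟩, h4⟩ := hq
    refine ⟨h1, h2, ?_⟩
    have : q ≡ r [MOD (W * g)] := by
      rw [← Nat.modEq_and_modEq_iff_modEq_mul hcop]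
      exact ⟨h3.trans hr1.symm, h4.trans hr2.symm⟩
    exact this
  have hcard : ((((Ps W b P).filter (fun q => q ≡ c [MOD g])).card : ℕ) : ℝ) ≤
      C * (⌊P⌋₊ : ℝ) / (Nat.totient (W * g) * Real.log (⌊P⌋₊ : ℝ)) := by
    refine le_trans ?_ key
    exact_mod_cast card_le_card hsub
  refine hcard.trans ?_
  rw [Nat.totient_mul hcop]
  have hφW : (0 : ℝ) < (Nat.totient W : ℝ) := by exact_mod_cast Nat.totient_pos.mpr hWpos
  have hφg : (0 : ℝ) < (Nat.totient g : ℝ) := by exact_mod_cast Nat.totient_pos.mpr hg1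
  have hfl : (⌊P⌋₊ : ℝ) ≤ P := Nat.floor_le (by linarith)
  push_cast
  rw [div_le_div_iff₀ (by positivity) (by positivity)]
  calc C * (⌊P⌋₊ : ℝ) * ((Nat.totient W : ℝ) * (Nat.totient g : ℝ) * Real.log P)
      ≤ C * P * ((Nat.totient W : ℝ) * (Nat.totient g : ℝ) * (2 * Real.log (⌊P⌋₊ : ℝ))) := by
        have : Real.log P ≤ 2 * Real.log (⌊P⌋₊ : ℝ) := by linarith
        gcongr
    _ = 2 * C * P * ((Nat.totient W : ℝ) * (Nat.totient g : ℝ) * Real.log (⌊P⌋₊ : ℝ)) := by ring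

theorem P1_card_PP (M : ℕ) (hM : 0 < M) : ∃ P₀ : ℕ, ∀ P : ℕ, P₀ ≤ P → ∀ u : ℕ,
    Nat.Coprime u M →
    1 / (8 * (Nat.totient M : ℝ)) * (P / Real.log P) ≤ #(Pool.Agent.helper85.SQ.PP M u P) := by
  obtain ⟨C, x₀, hC, hSW⟩ := Pool.Agent.helper74.TG.siegel_walfisz 1 1
  have hφ : (0 : ℝ) < (Nat.totient M : ℝ) := by exact_mod_cast Nat.totient_pos.mpr hM
  have E1 : ∀ᶠ x : ℝ in atTop, x₀ ≤ x := eventually_ge_atTop x₀
  have E2 : ∀ᶠ x : ℝ in atTop, max (M : ℝ) (8 * C * Nat.totient M + 1) ≤ Real.log x :=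
    Real.tendsto_log_atTop.eventually_ge_atTop _
  have E3 : ∀ᶠ x : ℝ in atTop, ‖Real.log x‖ ≤ 1 / (16 * (Nat.totient M : ℝ)) * ‖x ^ (1 / 2 : ℝ)‖ :=
    (isLittleO_log_rpow_atTop (by norm_num : (0 : ℝ) < 1 / 2)).bound (by positivity)
  have E4 : ∀ᶠ x : ℝ in atTop, 1 ≤ x := eventually_ge_atTop 1
  obtain ⟨P₀, hP₀⟩ := (tendsto_natCast_atTop_atTop (R := ℝ)).eventually
    (E1.and (E2.and (E3.and E4))) |> eventually_atTop.mp
  refine ⟨P₀, fun P hP u hu => ?_⟩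
  obtain ⟨h1, h2, h3, h4⟩ := hP₀ P hP
  have hMl : (M : ℝ) ≤ Real.log P := le_trans (le_max_left _ _) h2
  have hCl : 8 * C * Nat.totient M + 1 ≤ Real.log P := le_trans (le_max_right _ _) h2
  have hlog : 0 < Real.log P := lt_of_lt_of_le (by positivity) hCl
  have hP1 : 1 ≤ P := by exact_mod_cast h4
  have hPpos : (0 : ℝ) < P := by linarith
  have S1 := hSW (P : ℝ) h1 M hM (by rw [pow_one]; exact hMl) u hu P le_rfl
  have S2 := hSW (P : ℝ) h1 M hM (by rw [pow_one]; exact hMl) u hu (P / 2)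
    (by exact_mod_cast Nat.div_le_self P 2)
  rw [pow_one] at S1 S2
  have S1' := (abs_le.mp S1).1
  have S2' := (abs_le.mp S2).2
  have K := Pool.Agent.helper85.SQ.pm_class M u P hP1
  have hhalf : ((P / 2 : ℕ) : ℝ) ≤ P / 2 := by
    have := @Nat.cast_div_le ℝ _ _ _ P 2
    simpa using this
  have hhalf' : ((P / 2 : ℕ) : ℝ) / (Nat.totient M : ℝ) ≤ P / 2 / (Nat.totient M : ℝ) := by
    gcongr
  -- error term of Siegel-Walfisz
  have hE : C * P / Real.log P ≤ P / (8 * (Nat.totient M : ℝ)) := by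
    rw [div_le_div_iff₀ hlog (by positivity)]
    nlinarith
  -- prime powers
  have hsq : √(P : ℝ) * √(P : ℝ) = P := Real.mul_self_sqrt hPpos.le
  have h3' : Real.log P ≤ 1 / (16 * (Nat.totient M : ℝ)) * √P := by
    have := h3
    rw [Real.norm_of_nonneg hlog.le, Real.norm_of_nonneg (by positivity),
      ← Real.sqrt_eq_rpow] at this
    exact this
  have hPW : 2 * √P * Real.log P ≤ P / (8 * (Nat.totient M : ℝ)) := by
    calc 2 * √P * Real.log P ≤ 2 * √P * (1 / (16 * (Nat.totient M : ℝ)) * √P) := by gcongr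
      _ = (√P * √P) / (8 * (Nat.totient M : ℝ)) := by
          field_simp
          norm_num
      _ = _ := by rw [hsq]
  have key : P / (8 * (Nat.totient M : ℝ)) ≤
      #(Pool.Agent.helper85.SQ.PP M u P) * Real.log P := by
    have e1 : (P : ℝ) / (Nat.totient M : ℝ) = 8 * (P / (8 * (Nat.totient M : ℝ))) := by
      field_simp
    have e2 : (P : ℝ) / 2 / (Nat.totient M : ℝ) = 4 * (P / (8 * (Nat.totient M : ℝ))) := by
      field_simp
      norm_num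
    linarith
  calc 1 / (8 * (Nat.totient M : ℝ)) * (P / Real.log P)
      = (P / (8 * (Nat.totient M : ℝ))) / Real.log P := by
        field_simp
    _ ≤ (#(Pool.Agent.helper85.SQ.PP M u P) * Real.log P) / Real.log P := by gcongr
    _ = #(Pool.Agent.helper85.SQ.PP M u P) := by field_simp

theorem Ps_lower (w : ℕ) : ∃ P₀ : ℝ, ∀ P : ℝ, P₀ ≤ P → ∀ b : ℕ, b.Coprime (primorial w) →
    P / (32 * (Nat.totient (primorial w) : ℝ) * Real.log P) ≤
      (((Ps (primorial w) b P).card : ℕ) : ℝ) := by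
  set W : ℕ := primorial w with hW
  have hWpos : 0 < W := primorial_pos w
  obtain ⟨P₀, hP₀⟩ := P1_card_PP W hWpos
  refine ⟨max 4 (2 * P₀), fun P hP b hb => ?_⟩
  have hP4 : (4 : ℝ) ≤ P := le_trans (le_max_left _ _) hP
  have hPx : 2 * (P₀ : ℝ) ≤ P := le_trans (le_max_right _ _) hP
  obtain ⟨f1, f2, f3, f4⟩ := P1_floor P hP4
  have hlogP : 0 < Real.log P := Real.log_pos (by linarith)
  have hx : P₀ ≤ ⌊P⌋₊ := by
    have : (P₀ : ℝ) ≤ (⌊P⌋₊ : ℝ) := by linarith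
    exact_mod_cast this
  have key := hP₀ ⌊P⌋₊ hx b hb
  have hφW : (0 : ℝ) < (Nat.totient W : ℝ) := by exact_mod_cast Nat.totient_pos.mpr hWpos
  have hsub : Pool.Agent.helper85.SQ.PP W b ⌊P⌋₊ ⊆ Ps W b P := by
    intro q hq
    simp only [Pool.Agent.helper85.SQ.PP, Ps, mem_filter, mem_Ioc, mem_Icc] at hq ⊢
    exact ⟨⟨hq.2.1.one_lt.le, hq.1.2⟩, hq.2⟩
  have hcard : (#(Pool.Agent.helper85.SQ.PP W b ⌊P⌋₊) : ℝ) ≤ (((Ps W b P).card : ℕ) : ℝ) := by
    exact_mod_cast card_le_card hsub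
  refine le_trans ?_ (key.trans hcard)
  have e1 : P / 2 / Real.log P ≤ (⌊P⌋₊ : ℝ) / Real.log (⌊P⌋₊ : ℝ) := by
    gcongr
  calc P / (32 * (Nat.totient W : ℝ) * Real.log P)
      = (1 / (16 * (Nat.totient W : ℝ))) * (P / 2 / Real.log P) := by
        field_simp
        norm_num
    _ ≤ (1 / (8 * (Nat.totient W : ℝ))) * (P / 2 / Real.log P) := by
        have h0 : 0 ≤ P / 2 / Real.log P := by positivity
        apply mul_le_mul_of_nonneg_right _ h0
        apply one_div_le_one_div_of_le (by positivity)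
        nlinarith
    _ ≤ (1 / (8 * (Nat.totient W : ℝ))) * ((⌊P⌋₊ : ℝ) / Real.log (⌊P⌋₊ : ℝ)) := by
        gcongr

end Pool.Agent.helper71.AA
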