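import Pool.Agent.helper71.AA.Defs

/-! # Project AA (MP_ad8ced_nt), module S5: algebra of the correlations -/

namespace Pool.Agent.helper71.AA

open Finset

theorem S5_pr_ne (K : Finset ℕ) (hK : ∀ l ∈ K, 2 ≤ l) : pr K ≠ 0 := by
  unfold pr
  rw [Finset.prod_ne_zero_iff]
  intro l hl
  have := hK l hl
  have h0 : l ≠ 0 := by omega
  exact_mod_cast h0

theorem S5_kap_sum (N M : Finset ℕ) :
    ∑ K ∈ M.powerset, kap N K = if M ⊆ N then pr M else 0 := by
  have h1 : ∑ K ∈ M.powerset, kap N K =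
      ∏ l ∈ M, (1 + (if l ∈ N then (l : ℝ) - 1 else -1)) := by
    rw [Finset.prod_one_add]
    rfl
  rw [h1]
  by_cases h : M ⊆ N
  · rw [if_pos h]
    unfold pr
    apply Finset.prod_congr rfl
    intro l hl
    rw [if_pos (h hl)]
    ring
  · rw [if_neg h]
    rw [Finset.not_subset] at h
    obtain ⟨l, hl, hlN⟩ := h
    apply Finset.prod_eq_zero hl
    rw [if_neg hlN]
    ring

theorem S5_rho (N D E : Finset ℕ) (hD : ∀ l ∈ D, 2 ≤ l) (hE : ∀ l ∈ E, 2 ≤ l) :
    rho N D E = 1 / (pr D * pr E) * ∑ K ∈ (D ∩ E).powerset, kap N K := by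
  rw [S5_kap_sum]
  unfold rho
  have hmul : pr (D ∪ E) * pr (D ∩ E) = pr D * pr E := by
    unfold pr
    exact Finset.prod_union_inter
  have hD0 := S5_pr_ne D hD
  have hE0 := S5_pr_ne E hE
  have hU : pr (D ∪ E) ≠ 0 := by
    apply S5_pr_ne
    intro l hl
    rcases Finset.mem_union.mp hl with h | h
    · exact hD l h
    · exact hE l h
  by_cases h : D ∩ E ⊆ N
  · rw [if_pos h, if_pos h, ← hmul]
    have hI : pr (D ∩ E) ≠ 0 := by
      apply S5_pr_ne
      intro l hl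
      exact hD l (Finset.mem_inter.mp hl).1
    field_simp
  · rw [if_neg h, if_neg h, mul_zero]

theorem corr_id (Q₁ Q₂ N : Finset ℕ) (hQ₁ : ∀ l ∈ Q₁, 2 ≤ l) (hQ₂ : ∀ l ∈ Q₂, 2 ≤ l)
    (ξ ζ : Finset ℕ → ℝ) :
    ∑ D ∈ Q₁.powerset, ∑ E ∈ Q₂.powerset, ξ D * ζ E * rho N D E =
      ∑ K ∈ (Q₁ ∩ Q₂).powerset, kap N K * Th Q₁ ξ K * Th Q₂ ζ K := by
  classical
  have hL : ∀ D ∈ Q₁.powerset, ∀ E ∈ Q₂.powerset, ξ D * ζ E * rho N D E =
      ∑ K ∈ (Q₁ ∩ Q₂).powerset, (if K ⊆ D then ξ D / pr D else 0) *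
        (if K ⊆ E then ζ E / pr E else 0) * kap N K := by
    intro D hD E hE
    rw [Finset.mem_powerset] at hD hE
    rw [S5_rho N D E (fun l hl => hQ₁ l (hD hl)) (fun l hl => hQ₂ l (hE hl))]
    rw [Finset.mul_sum, Finset.mul_sum]
    have hsub : (D ∩ E).powerset ⊆ (Q₁ ∩ Q₂).powerset :=
      Finset.powerset_mono.mpr (Finset.inter_subset_inter hD hE)
    rw [← Finset.sum_subset hsub]
    · apply Finset.sum_congr rfl
      intro K hK
      rw [Finset.mem_powerset] at hK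
      rw [if_pos (hK.trans Finset.inter_subset_left), if_pos (hK.trans Finset.inter_subset_right)]
      have hD0 := S5_pr_ne D (fun l hl => hQ₁ l (hD hl))
      have hE0 := S5_pr_ne E (fun l hl => hQ₂ l (hE hl))
      field_simp
    · intro K _ hK
      rw [Finset.mem_powerset] at hK
      by_cases h1 : K ⊆ D
      · by_cases h2 : K ⊆ E
        · exact absurd (Finset.subset_inter h1 h2) hK
        · rw [if_neg h2]; ring
      · rw [if_neg h1]; ring
  rw [Finset.sum_congr rfl (fun D hD => Finset.sum_congr rfl (fun E hE => hL D hD E hE))]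
  have hR : ∀ K ∈ (Q₁ ∩ Q₂).powerset, kap N K * Th Q₁ ξ K * Th Q₂ ζ K =
      ∑ D ∈ Q₁.powerset, ∑ E ∈ Q₂.powerset, (if K ⊆ D then ξ D / pr D else 0) *
        (if K ⊆ E then ζ E / pr E else 0) * kap N K := by
    intro K _
    unfold Th
    rw [Finset.sum_filter, Finset.sum_filter, mul_assoc, Finset.sum_mul_sum, Finset.mul_sum]
    apply Finset.sum_congr rfl
    intro D _
    rw [Finset.mul_sum]
    apply Finset.sum_congr rfl
    intro E _
    ring
  rw [Finset.sum_congr rfl hR]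
  rw [Finset.sum_comm]
  rw [Finset.sum_comm (s := (Q₁ ∩ Q₂).powerset)]
  rw [Finset.sum_comm]
  apply Finset.sum_congr rfl
  intro D _
  rw [Finset.sum_comm]

theorem corr_le (Q : Finset ℕ) (hQ : ∀ l ∈ Q, 2 ≤ l) (p q : ℕ) (ξ ζ : Finset ℕ → ℝ) (c₁ c₂ : ℝ)
    (hc₁ : 0 ≤ c₁) (hc₂ : 0 ≤ c₂)
    (h₁ : ∀ K ⊆ Q.erase p, |Th (Q.erase p) ξ K| ≤ c₁ * (9 ^ K.card / ph K))
    (h₂ : ∀ K ⊆ Q.erase q, |Th (Q.erase q) ζ K| ≤ c₂ * (9 ^ K.card / ph K)) :
    ∑ D ∈ (Q.erase p).powerset, ∑ E ∈ (Q.erase q).powerset, ξ D * ζ E * rho (Nn Q p q) D E ≤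
      Th (Q.erase p) ξ ∅ * Th (Q.erase q) ζ ∅ + c₁ * c₂ * (Cf Q p q - 1) := by
  classical
  rw [corr_id (Q.erase p) (Q.erase q) (Nn Q p q)
    (fun l hl => hQ l (Finset.mem_of_mem_erase hl)) (fun l hl => hQ l (Finset.mem_of_mem_erase hl))]
  have hset : Q.erase p ∩ Q.erase q = (Q.erase p).erase q := by
    ext l
    simp only [Finset.mem_inter, Finset.mem_erase]
    tauto
  rw [hset]
  set M : Finset ℕ := (Q.erase p).erase q with hM
  set N : Finset ℕ := Nn Q p q with hN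
  have hMQ : ∀ l ∈ M, 2 ≤ l := by
    intro l hl
    exact hQ l (Finset.mem_of_mem_erase (Finset.mem_of_mem_erase hl))
  -- the product
  have hCf : Cf Q p q = ∑ K ∈ M.powerset,
      ∏ l ∈ K, (81 * (if l ∈ N then (l : ℝ) - 1 else 1) / ((l : ℝ) - 1) ^ 2) := by
    unfold Cf
    rw [Finset.prod_one_add]
  have hterm : ∀ K ∈ M.powerset, kap N K * Th (Q.erase p) ξ K * Th (Q.erase q) ζ K ≤
      c₁ * c₂ * ∏ l ∈ K, (81 * (if l ∈ N then (l : ℝ) - 1 else 1) / ((l : ℝ) - 1) ^ 2) := by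
    intro K hK
    rw [Finset.mem_powerset] at hK
    have hK1 : K ⊆ Q.erase p := hK.trans (Finset.erase_subset _ _)
    have hK2 : K ⊆ Q.erase q := by
      intro l hl
      have := hK hl
      rw [hM] at this
      simp only [Finset.mem_erase] at this ⊢
      tauto
    have hphpos : 0 < ph K := by
      unfold ph
      apply Finset.prod_pos
      intro l hl
      have := hMQ l (hK hl)
      have h2 : (2 : ℝ) ≤ l := by exact_mod_cast this
      linarith
    have hkap : |kap N K| = ∏ l ∈ K, (if l ∈ N then (l : ℝ) - 1 else 1) := by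
      unfold kap
      rw [Finset.abs_prod]
      apply Finset.prod_congr rfl
      intro l hl
      have := hMQ l (hK hl)
      have h2 : (2 : ℝ) ≤ l := by exact_mod_cast this
      by_cases h : l ∈ N
      · rw [if_pos h, if_pos h, abs_of_nonneg (by linarith)]
      · rw [if_neg h, if_neg h]; norm_num
    have hprod : ∏ l ∈ K, (81 * (if l ∈ N then (l : ℝ) - 1 else 1) / ((l : ℝ) - 1) ^ 2) =
        |kap N K| * (9 ^ K.card / ph K) * (9 ^ K.card / ph K) := by
      rw [hkap]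
      rw [Finset.prod_div_distrib, Finset.prod_mul_distrib, Finset.prod_const, Finset.prod_pow]
      have h81 : (81 : ℝ) ^ K.card = 9 ^ K.card * 9 ^ K.card := by
        rw [← mul_pow]; norm_num
      rw [h81]
      have : (∏ l ∈ K, ((l : ℝ) - 1)) = ph K := rfl
      rw [this]
      field_simp
    rw [hprod]
    calc kap N K * Th (Q.erase p) ξ K * Th (Q.erase q) ζ K
        ≤ |kap N K * Th (Q.erase p) ξ K * Th (Q.erase q) ζ K| := le_abs_self _
      _ = |kap N K| * |Th (Q.erase p) ξ K| * |Th (Q.erase q) ζ K| := by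
          rw [abs_mul, abs_mul]
      _ ≤ |kap N K| * (c₁ * (9 ^ K.card / ph K)) * (c₂ * (9 ^ K.card / ph K)) := by
          have h1 := h₁ K hK1
          have h2 := h₂ K hK2
          have hn : 0 ≤ (9 : ℝ) ^ K.card / ph K := by positivity
          gcongr
      _ = c₁ * c₂ * (|kap N K| * (9 ^ K.card / ph K) * (9 ^ K.card / ph K)) := by ring
  have hmem : (∅ : Finset ℕ) ∈ M.powerset := Finset.empty_mem_powerset _
  rw [← Finset.add_sum_erase _ _ hmem]
  have hk0 : kap N ∅ = 1 := by unfold kap; simp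
  rw [hk0, one_mul]
  have hrest : ∑ K ∈ M.powerset.erase ∅, kap N K * Th (Q.erase p) ξ K * Th (Q.erase q) ζ K ≤
      c₁ * c₂ * (Cf Q p q - 1) := by
    rw [hCf, ← Finset.add_sum_erase _ _ hmem]
    rw [Finset.prod_empty, add_sub_cancel_left, Finset.mul_sum]
    apply Finset.sum_le_sum
    intro K hK
    exact hterm K (Finset.mem_of_mem_erase hK)
  linarith

end Pool.Agent.helper71.AA
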